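import Pool.Agent.helper71.DSW.SpecB

set_option autoImplicit false

namespace Pool.Agent.DSW

open Equiv Finset Function Pool.Agent.helper48.PP
open scoped ENNReal Classical

theorem FST (hFKG : FKG_stmt) (hMIN : MIN_stmt) (hTOT : TOT_stmt) : FST_stmt := by
  intro L m m' e p hp0 hp1 he
  obtain ⟨-, -, hcard, hsub⟩ := hTOT L
  have h𝓕 : ∀ F ∈ Bad m m' e, F ⊆ Dom m m' \ cells e := by
    intro F hF
    simp only [Bad, Finset.mem_filter, Finset.mem_powerset] at hF
    obtain ⟨hFD, e', -, rfl⟩ := hF
    intro z hz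
    rw [Finset.mem_sdiff]
    refine ⟨hFD hz, ?_⟩
    intro hze
    obtain ⟨u, hu, rfl⟩ := Finset.mem_image.mp hz
    obtain ⟨v, -, hv⟩ := Finset.mem_image.mp hze
    have huv : v = u := by
      have := congrArg Prod.fst hv
      simpa [cellAt] using this
    subst huv
    simp only [mov, Finset.mem_filter, Finset.mem_univ, true_and] at hu
    exact hu hv.symm
  have h1 := hFKG (Cell L) (Dom m m') (cells e) p (Bad m m' e) hp0 hp1 (hsub m m' e he)
    (by
      intro F hF z hz
      have hz' := Finset.mem_sdiff.mp (h𝓕 F hF hz)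
      exact (@Finset.mem_sdiff (Cell L) (fun a b => Classical.propDecidable (a = b)) _ _ _).mpr hz')
  rw [hcard] at h1
  refine h1.trans ?_
  unfold Pr
  refine Finset.sum_le_sum_of_subset_of_nonneg ?_ ?_
  · intro S hS
    simp only [Finset.mem_filter, Finset.mem_powerset] at hS ⊢
    obtain ⟨hSD, heS, hno⟩ := hS
    refine ⟨hSD, heS, ?_⟩
    intro e' he' he'S hbet
    obtain ⟨e'', hmove, hcells⟩ := hMIN L m m' e e' he he' hbet
    have hsubS : (mov e e'').image (cellAt e'') ⊆ S := by
      intro z hz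
      obtain ⟨u, -, rfl⟩ := Finset.mem_image.mp hz
      have : cellAt e'' u ∈ cells e'' := Finset.mem_image.mpr ⟨u, Finset.mem_univ _, rfl⟩
      rcases Finset.mem_union.mp (hcells this) with h | h
      · exact heS h
      · exact he'S h
    refine hno _ ?_ hsubS
    simp only [Bad, Finset.mem_filter, Finset.mem_powerset]
    exact ⟨hsubS.trans hSD, e'', hmove, rfl⟩
  · intro S _ _
    have : (0 : ℝ) ≤ 1 - p := by linarith
    positivity

end Pool.Agent.DSW
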