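import Pool.Agent.helper71.DSW.SpecB

set_option autoImplicit false

namespace Pool.Agent.DSW

open Equiv Finset Function Pool.Agent.helper48.PP
open scoped ENNReal Classical

theorem TOT_inj {L : ℕ} (e : Arr L) : Function.Injective (cellAt e) := by
  intro u v h
  have := congrArg Prod.fst h
  simpa [cellAt] using this

theorem TOT_ext {L : ℕ} (e e' : Arr L) (h : ∀ u, cellAt e u = cellAt e' u) : e = e' := by
  have h1 : ∀ b i, e.1 b i = e'.1 b i := by
    intro b i
    have := congrArg (fun z => z.2.1) (h (b, i))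
    simpa [cellAt] using this
  have h2 : ∀ i b, e.2 i b = e'.2 i b := by
    intro i b
    have := congrArg (fun z => z.2.2) (h (b, i))
    simpa [cellAt] using this
  refine Prod.ext ?_ ?_
  · funext b i; exact h1 b i
  · funext i b; exact h2 i b

theorem TOT : TOT_stmt := by
  intro L
  refine ⟨?_, ?_, ?_, ?_⟩
  · intro e e' hne
    have hex : ∃ u : Fin L × Fin L, cellAt e u ≠ cellAt e' u := by
      by_contra hcon
      push Not at hcon
      exact hne (TOT_ext e e' hcon)
    -- first block in the lexicographic order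
    let D : Finset (Fin L ×ₗ Fin L) :=
      Finset.univ.filter fun u => cellAt e (ofLex u) ≠ cellAt e' (ofLex u)
    have hD : D.Nonempty := by
      obtain ⟨u, hu⟩ := hex
      exact ⟨toLex u, by simp [D, hu]⟩
    let u0 := D.min' hD
    have hu0 : cellAt e (ofLex u0) ≠ cellAt e' (ofLex u0) := by
      have := D.min'_mem hD
      simpa [D] using this
    have hlt : ∀ v : Fin L × Fin L, (v.1 < (ofLex u0).1 ∨ (v.1 = (ofLex u0).1 ∧ v.2 < (ofLex u0).2)) →
        cellAt e v = cellAt e' v := by
      intro v hv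
      by_contra hcon
      have h1 : toLex v ∈ D := by simp [D, hcon]
      have h2 := D.min'_le _ h1
      have h3 : toLex v < u0 := by
        rw [Prod.Lex.lt_iff]
        exact hv
      exact absurd h2 (not_le.mpr h3)
    set u := ofLex u0 with hu
    by_cases ha : e.1 u.1 u.2 < e'.1 u.1 u.2
    · left
      exact ⟨u, fun v hv => hlt v hv, Or.inl ha⟩
    · by_cases hb : e'.1 u.1 u.2 < e.1 u.1 u.2
      · right
        exact ⟨u, fun v hv => (hlt v hv).symm, Or.inl hb⟩
      · have h1 : e.1 u.1 u.2 = e'.1 u.1 u.2 := by omega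
        have h2 : e.2 u.2 u.1 ≠ e'.2 u.2 u.1 := by
          intro h2
          apply hu0
          simp only [cellAt]
          rw [h1, h2]
        rcases lt_or_gt_of_ne h2 with h3 | h3
        · left
          exact ⟨u, fun v hv => hlt v hv, Or.inr ⟨h1, h3⟩⟩
        · right
          exact ⟨u, fun v hv => (hlt v hv).symm, Or.inr ⟨h1.symm, h3⟩⟩
  · rintro e e' ⟨u, hu, hu2⟩ ⟨v, hv, hv2⟩
    have key : ∀ w : Fin L × Fin L, cellAt e w = cellAt e' w →
        e.1 w.1 w.2 = e'.1 w.1 w.2 ∧ e.2 w.2 w.1 = e'.2 w.2 w.1 := by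
      intro w hw
      simp only [cellAt, Prod.mk.injEq, true_and] at hw
      exact hw
    have htri : (v.1 < u.1 ∨ (v.1 = u.1 ∧ v.2 < u.2)) ∨ v = u ∨
        (u.1 < v.1 ∨ (u.1 = v.1 ∧ u.2 < v.2)) := by
      rcases lt_trichotomy v.1 u.1 with h | h | h
      · exact Or.inl (Or.inl h)
      · rcases lt_trichotomy v.2 u.2 with h' | h' | h'
        · exact Or.inl (Or.inr ⟨h, h'⟩)
        · exact Or.inr (Or.inl (Prod.ext h h'))
        · exact Or.inr (Or.inr (Or.inr ⟨h.symm, h'⟩))
      · exact Or.inr (Or.inr (Or.inl h))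
    rcases htri with h | h | h
    · obtain ⟨h1, h2⟩ := key v (hu v h)
      rcases hv2 with h3 | ⟨h3, h4⟩ <;> omega
    · subst h
      rcases hv2 with h3 | ⟨h3, h4⟩ <;> rcases hu2 with h5 | ⟨h5, h6⟩ <;> omega
    · obtain ⟨h1, h2⟩ := key u (hv u h).symm
      rcases hu2 with h3 | ⟨h3, h4⟩ <;> omega
  · intro e
    rw [cells, Finset.card_image_of_injective _ (TOT_inj e)]
    simp
  · intro m m' e he z hz
    obtain ⟨u, -, rfl⟩ := Finset.mem_image.mp hz
    simp only [Dom, Finset.mem_biUnion, Finset.mem_univ, true_and]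
    refine ⟨u, ?_⟩
    simp only [cellAt, Finset.mem_product, Finset.mem_singleton, Finset.mem_range, true_and]
    exact ⟨he.2.2.1 u.1 u.2, he.2.2.2 u.2 u.1⟩

end Pool.Agent.DSW
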